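import Pool.Agent.K7.H61.FF.Far
import Pool.Agent.TH101.RG.Tup

set_option autoImplicit false
set_option maxHeartbeats 4000000

/-! # Far-apart forms and a tuple: classes modulo the small primes, and the template (helper61) -/

namespace Pool.Agent.K7.H61.FT

open Finset Filter
open Pool.Agent.H378R2
open Pool.Agent.H312R2.RG (BVat)
open Pool.Agent.TH101.RG
open Pool.Agent.H362R2.RQ (fib)
open Pool.Agent.K7.H61.FF

open scoped Classical

/-- one prime: an allowed class which leaves few of the forms -/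
theorem avg_oneT {ι : Type} {K : ℕ} (p : ℕ) (hp : p.Prime) (t : Fin K → ℕ) (hadm : ∃ v : ℕ, ∀ j, ¬ p ∣ v + t j)
    (α β : ι → ℤ) (T : Finset ι) (W : ι → ℝ) (hW : ∀ k, 0 ≤ W k) :
    ∃ ρ : ℕ, (∀ j, ¬ p ∣ ρ + t j) ∧ ∑ k ∈ T.filter (fun k => ¬ (p : ℤ) ∣ α k * ρ + β k), W k ≤
      ∑ k ∈ T, (if (p : ℤ) ∣ α k ∨ (∃ j, (p : ℤ) ∣ α k * t j - β k) then 1 else 1 - 1 / (p : ℝ)) * W k := by
  have hp0 : 0 < p := hp.pos
  set 𝒜 : Finset ℕ := (range p).filter (fun ρ : ℕ => ∀ j, ¬ p ∣ ρ + t j) with h𝒜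
  have hmem𝒜 : ∀ v : ℕ, (∀ j, ¬ p ∣ v + t j) → v % p ∈ 𝒜 := by
    intro v hv
    rw [h𝒜, mem_filter, mem_range]
    refine ⟨Nat.mod_lt _ hp0, fun j hd => hv j ?_⟩
    have h1 : v % p + t j ≡ v + t j [MOD p] := (Nat.mod_modEq v p).add_right _
    exact (Nat.modEq_zero_iff_dvd).1 (h1.symm.trans ((Nat.modEq_zero_iff_dvd).2 hd))
  have hne : 𝒜.Nonempty := by
    obtain ⟨v, hv⟩ := hadm
    exact ⟨_, hmem𝒜 v hv⟩
  have hcard : 𝒜.card ≤ p := by
    rw [h𝒜]
    refine (card_filter_le _ _).trans ?_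
    rw [card_range]
  have hN1 : 0 < 𝒜.card := card_pos.2 hne
  have hpr : (0 : ℝ) < p := by exact_mod_cast hp0
  by_contra hcon
  push Not at hcon
  set R : ℝ := ∑ k ∈ T, (if (p : ℤ) ∣ α k ∨ (∃ j, (p : ℤ) ∣ α k * t j - β k) then 1 else 1 - 1 / (p : ℝ)) * W k
    with hR
  have h1 : ∑ ρ ∈ 𝒜, R < ∑ ρ ∈ 𝒜, ∑ k ∈ T.filter (fun k => ¬ (p : ℤ) ∣ α k * ρ + β k), W k :=
    sum_lt_sum_of_nonempty hne fun ρ hρ => hcon ρ (by
      rw [h𝒜, mem_filter] at hρ
      exact hρ.2)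
  rw [sum_const, nsmul_eq_mul] at h1
  have h2 : ∑ ρ ∈ 𝒜, ∑ k ∈ T.filter (fun k => ¬ (p : ℤ) ∣ α k * ρ + β k), W k =
      ∑ k ∈ T, ((𝒜.filter (fun ρ : ℕ => ¬ (p : ℤ) ∣ α k * ρ + β k)).card : ℝ) * W k := by
    simp_rw [sum_filter]
    rw [sum_comm]
    apply sum_congr rfl
    intro k _
    rw [← sum_filter, sum_const, nsmul_eq_mul]
  have h3 : ∑ k ∈ T, ((𝒜.filter (fun ρ : ℕ => ¬ (p : ℤ) ∣ α k * ρ + β k)).card : ℝ) * W k ≤
      (𝒜.card : ℝ) * R := by
    rw [hR, mul_sum]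
    apply sum_le_sum
    intro k _
    rw [← mul_assoc]
    apply mul_le_mul_of_nonneg_right _ (hW k)
    split_ifs with h
    · rw [mul_one]
      exact_mod_cast card_filter_le _ _
    · push Not at h
      obtain ⟨ρ0, hρ0⟩ := solve p hp (α k) (β k) h.1
      have hex : ∃ v : ℕ, (p : ℤ) ∣ (v : ℤ) - ρ0 := by
        refine ⟨(ρ0 % (p : ℤ)).toNat, ?_⟩
        rw [Int.toNat_of_nonneg (Int.emod_nonneg _ (by exact_mod_cast hp0.ne'))]
        exact (dvd_sub_comm).1 Int.dvd_self_sub_emod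
      obtain ⟨v, hv⟩ := hex
      have hvmod : (p : ℤ) ∣ α k * (v : ℤ) + β k := by
        have e1 : α k * (v : ℤ) + β k = (α k * ρ0 + β k) + α k * ((v : ℤ) - ρ0) := by ring
        rw [e1]
        exact dvd_add hρ0 (hv.mul_left _)
      have hmod : (p : ℤ) ∣ α k * ((v % p : ℕ) : ℤ) + β k := by
        have e1 : α k * ((v % p : ℕ) : ℤ) + β k = (α k * v + β k) - α k * ((v : ℤ) - ((v % p : ℕ) : ℤ)) := by
          ring
        rw [e1]
        apply dvd_sub hvmod
        apply Dvd.dvd.mul_left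
        rw [Int.natCast_mod]
        exact Int.dvd_self_sub_emod
      have hmem : v % p ∈ 𝒜 := by
        apply hmem𝒜
        intro j hd
        apply h.2 j
        have h4 : (p : ℤ) ∣ (v : ℤ) + t j := by exact_mod_cast hd
        have e1 : α k * (t j : ℤ) - β k = α k * ((v : ℤ) + t j) - (α k * v + β k) := by ring
        rw [e1]
        exact dvd_sub (h4.mul_left _) hvmod
      have h4 : 𝒜.filter (fun ρ : ℕ => ¬ (p : ℤ) ∣ α k * ρ + β k) ⊆ 𝒜.erase (v % p) := by
        intro ρ hρ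
        rw [mem_filter] at hρ
        rw [mem_erase]
        refine ⟨?_, hρ.1⟩
        rintro rfl
        exact hρ.2 hmod
      have h5 := card_le_card h4
      rw [card_erase_of_mem hmem] at h5
      have h6 : ((𝒜.filter (fun ρ : ℕ => ¬ (p : ℤ) ∣ α k * ρ + β k)).card : ℝ) ≤ (𝒜.card : ℝ) - 1 := by
        have : ((𝒜.filter (fun ρ : ℕ => ¬ (p : ℤ) ∣ α k * ρ + β k)).card : ℝ) ≤ ((𝒜.card - 1 : ℕ) : ℝ) := by
          exact_mod_cast h5
        rwa [Nat.cast_sub hN1, Nat.cast_one] at this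
      refine h6.trans ?_
      rw [mul_sub, mul_one, mul_one_div]
      have h7 : (𝒜.card : ℝ) / p ≤ 1 := by
        rw [div_le_one hpr]
        exact_mod_cast hcard
      linarith
  rw [h2] at h1
  linarith

/-- all primes -/
theorem avg_classesT {ι : Type} {K : ℕ} (t : Fin K → ℕ) (g : ℕ) (u : ℕ → ℕ) (α β : ι → ℤ) (P : Finset ℕ)
    (hP : ∀ p ∈ P, p.Prime) (hu : ∀ p ∈ P, ∀ j, ¬ p ∣ u p + t j) : ∀ T : Finset ι, ∃ ρ : ℕ → ℕ,
    (∀ p ∈ P, (∀ j, ¬ p ∣ ρ p + t j) ∧ (p ∣ g → ρ p = u p)) ∧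
    ((T.filter (fun k => ∀ p ∈ P, ¬ p ∣ g → ¬ (p : ℤ) ∣ α k * ρ p + β k)).card : ℝ) ≤
      ∑ k ∈ T, ∏ p ∈ P, (if p ∣ g ∨ (p : ℤ) ∣ α k ∨ (∃ j, (p : ℤ) ∣ α k * t j - β k) then (1 : ℝ)
        else 1 - 1 / (p : ℝ)) := by
  have hf0 : ∀ p : ℕ, p.Prime → ∀ k : ι,
      0 ≤ (if p ∣ g ∨ (p : ℤ) ∣ α k ∨ (∃ j, (p : ℤ) ∣ α k * t j - β k) then (1 : ℝ) else 1 - 1 / (p : ℝ)) := by
    intro p hp k
    split_ifs
    · exact zero_le_one
    · have h2 : (2 : ℝ) ≤ p := by exact_mod_cast hp.two_le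
      have : 1 / (p : ℝ) ≤ 1 := by
        rw [div_le_one (by linarith)]
        linarith
      linarith
  induction P using Finset.induction_on with
  | empty =>
    intro T
    refine ⟨fun _ => 0, by simp, ?_⟩
    simp
  | insert q P hq ih =>
    intro T
    have hqp : q.Prime := hP q (mem_insert_self _ _)
    have hP' : ∀ p ∈ P, p.Prime := fun p hp => hP p (mem_insert_of_mem hp)
    have ih' := ih hP' (fun p hp => hu p (mem_insert_of_mem hp))
    set W : ι → ℝ := fun k => ∏ p ∈ P, (if p ∣ g ∨ (p : ℤ) ∣ α k ∨ (∃ j, (p : ℤ) ∣ α k * t j - β k) then (1 : ℝ)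
      else 1 - 1 / (p : ℝ)) with hW
    have hW0 : ∀ k, 0 ≤ W k := fun k => prod_nonneg fun p hp => hf0 p (hP' p hp) k
    obtain ⟨ρq, hρ1, hρ2, hρ3⟩ : ∃ ρq : ℕ, (∀ j, ¬ q ∣ ρq + t j) ∧ (q ∣ g → ρq = u q) ∧
        ∑ k ∈ T.filter (fun k => ¬ q ∣ g → ¬ (q : ℤ) ∣ α k * ρq + β k), W k ≤
        ∑ k ∈ T, (if q ∣ g ∨ (q : ℤ) ∣ α k ∨ (∃ j, (q : ℤ) ∣ α k * t j - β k) then 1 else 1 - 1 / (q : ℝ)) *
          W k := by
      by_cases hqg : q ∣ g
      · refine ⟨u q, hu q (mem_insert_self _ _), fun _ => rfl, ?_⟩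
        simp only [hqg, not_true_eq_false, false_imp_iff, filter_true, true_or, if_true, one_mul]
        exact le_rfl
      · obtain ⟨ρ, h1, h2⟩ := avg_oneT q hqp t ⟨u q, hu q (mem_insert_self _ _)⟩ α β T W hW0
        refine ⟨ρ, h1, fun h => absurd h hqg, ?_⟩
        simp only [hqg, not_false_eq_true, true_imp_iff, false_or]
        exact h2
    obtain ⟨ρ, h1, h2⟩ := ih' (T.filter (fun k => ¬ q ∣ g → ¬ (q : ℤ) ∣ α k * ρq + β k))
    refine ⟨fun p => if p = q then ρq else ρ p, ?_, ?_⟩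
    · intro p hp
      by_cases hpq : p = q
      · subst hpq
        simp only [if_true]
        exact ⟨hρ1, hρ2⟩
      · simp only [if_neg hpq]
        rw [mem_insert] at hp
        exact h1 p (hp.resolve_left hpq)
    · have e1 : T.filter (fun k => ∀ p ∈ insert q P, ¬ p ∣ g →
          ¬ (p : ℤ) ∣ α k * ((if p = q then ρq else ρ p : ℕ) : ℤ) + β k) =
          (T.filter (fun k => ¬ q ∣ g → ¬ (q : ℤ) ∣ α k * ρq + β k)).filter
            (fun k => ∀ p ∈ P, ¬ p ∣ g → ¬ (p : ℤ) ∣ α k * ρ p + β k) := by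
        rw [filter_filter]
        apply filter_congr
        intro k _
        constructor
        · intro h
          refine ⟨?_, ?_⟩
          · have := h q (mem_insert_self _ _)
            simpa using this
          · intro p hp hpg
            have h3 := h p (mem_insert_of_mem hp) hpg
            have hpq : p ≠ q := by
              rintro rfl
              exact hq hp
            simpa only [if_neg hpq] using h3
        · rintro ⟨h3, h4⟩ p hp hpg
          rw [mem_insert] at hp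
          by_cases hpq : p = q
          · subst hpq
            simpa using h3 hpg
          · simp only [if_neg hpq]
            exact h4 p (hp.resolve_left hpq) hpg
      rw [e1]
      refine h2.trans (hρ3.trans (le_of_eq ?_))
      apply sum_congr rfl
      intro k _
      rw [prod_insert hq]

/-- the number of excluded primes -/
theorem card_BxT (K D : ℕ) (X : ℝ) (hX : 4 ≤ X) (hL : 4 * (3 + 10 * ((D + K + K * D : ℕ) : ℝ)) ≤ Real.log X)
    (ps g : ℕ) (hg : (g : ℝ) ≤ X ^ D) (U : Finset ℕ) (hU : (U.card : ℝ) ≤ Real.log X) (α β : ℕ → ℤ)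
    (t : Fin K → ℕ) (ht : ∀ j, (t j : ℝ) ≤ (Real.log X) ^ 2)
    (h : ∀ k ∈ U, |(α k : ℝ)| ≤ X ^ D ∧ |(β k : ℝ)| ≤ X ^ D) :
    2 * ((insert ps ((g.primeFactors ∪
      U.biUnion (fun k => (α k).natAbs.primeFactors ∪
        (univ : Finset (Fin K)).biUnion (fun j => (α k * t j - β k).natAbs.primeFactors))) ∪
      U.biUnion (fun k => U.biUnion (fun l => (α k * β l - α l * β k).natAbs.primeFactors)))).card : ℝ) ≤
      (Real.log X) ^ 4 := by
  set L := Real.log X with hLd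
  have hX0 : 0 < X := by linarith
  have hD0 : (0 : ℝ) ≤ D := Nat.cast_nonneg D
  have hK0 : (0 : ℝ) ≤ K := Nat.cast_nonneg K
  push_cast at hL
  have hKD : (0 : ℝ) ≤ (K : ℝ) * D := by positivity
  have hL1 : 12 ≤ L := by linarith
  have hX1 : 1 ≤ X := by linarith
  have hXL : L ^ 2 ≤ 2 * X := by
    have h1 : X = Real.exp L := (Real.exp_log hX0).symm
    have h2 : L ^ 2 / 2 ≤ Real.exp L := by
      have := Real.pow_div_factorial_le_exp L (by linarith) 2
      simpa [Nat.factorial] using this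
    rw [h1]
    linarith
  have h1 : (g.primeFactors.card : ℝ) ≤ 2 * (D * L) := by
    have := card_pf_le hX1 D (g : ℤ) (by
      rw [Int.cast_natCast, abs_of_nonneg (Nat.cast_nonneg g)]
      exact hg)
    simpa using this
  have h2 : ((U.biUnion (fun k => (α k).natAbs.primeFactors ∪
        (univ : Finset (Fin K)).biUnion (fun j => (α k * t j - β k).natAbs.primeFactors))).card : ℝ) ≤
      L * ((2 * D + K * (2 * (D + 2))) * L) := by
    have e1 : ((U.biUnion (fun k => (α k).natAbs.primeFactors ∪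
        (univ : Finset (Fin K)).biUnion (fun j => (α k * t j - β k).natAbs.primeFactors))).card : ℝ) ≤
        ∑ k ∈ U, (((α k).natAbs.primeFactors ∪
        (univ : Finset (Fin K)).biUnion (fun j => (α k * t j - β k).natAbs.primeFactors)).card : ℝ) := by
      exact_mod_cast card_biUnion_le
    refine e1.trans ((sum_le_card_nsmul _ _ _ (fun k hk => ?_)).trans
      (?_ : _ • ((2 * D + K * (2 * (D + 2))) * L) ≤ _))
    · have e2 : (((α k).natAbs.primeFactors ∪
        (univ : Finset (Fin K)).biUnion (fun j => (α k * t j - β k).natAbs.primeFactors)).card : ℝ) ≤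
          (α k).natAbs.primeFactors.card +
            ((univ : Finset (Fin K)).biUnion (fun j => (α k * t j - β k).natAbs.primeFactors)).card := by
        exact_mod_cast card_union_le _ _
      have e3 := card_pf_le hX1 D (α k) (h k hk).1
      have e4 : (((univ : Finset (Fin K)).biUnion (fun j => (α k * t j - β k).natAbs.primeFactors)).card : ℝ) ≤
          ∑ j : Fin K, ((α k * t j - β k).natAbs.primeFactors.card : ℝ) := by
        exact_mod_cast card_biUnion_le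
      have e5 : ∑ j : Fin K, ((α k * t j - β k).natAbs.primeFactors.card : ℝ) ≤ K * (2 * ((D + 2) * L)) := by
        refine (sum_le_card_nsmul _ _ (2 * ((D + 2) * L)) (fun j _ => ?_)).trans ?_
        · have := card_pf_le hX1 (D + 2) (α k * t j - β k) ?_
          · push_cast at this
            exact this
          · push_cast
            refine (abs_sub _ _).trans ?_
            rw [abs_mul, abs_of_nonneg (Nat.cast_nonneg (t j) : (0 : ℝ) ≤ t j)]
            have f1 : |(α k : ℝ)| * (t j : ℝ) ≤ X ^ D * (2 * X) :=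
              mul_le_mul (h k hk).1 ((ht j).trans hXL) (Nat.cast_nonneg _) (by positivity)
            have f2 : |(β k : ℝ)| ≤ X ^ D := (h k hk).2
            have f3 : X ^ (D + 2) = X ^ D * (X * X) := by ring
            rw [f3]
            have f4 : 2 * X + 1 ≤ X * X := by nlinarith
            have f5 : X ^ D * (2 * X + 1) ≤ X ^ D * (X * X) := mul_le_mul_of_nonneg_left f4 (by positivity)
            linarith
        · rw [nsmul_eq_mul, card_univ, Fintype.card_fin]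
      linarith
    · rw [nsmul_eq_mul]
      exact mul_le_mul_of_nonneg_right hU (by positivity)
  have h3 : ((U.biUnion (fun k => U.biUnion (fun l => (α k * β l - α l * β k).natAbs.primeFactors))).card : ℝ) ≤
      L * (L * (2 * (((2 * D + 1 : ℕ) : ℝ) * L))) := by
    have e1 : ((U.biUnion (fun k => U.biUnion (fun l => (α k * β l - α l * β k).natAbs.primeFactors))).card : ℝ) ≤
        ∑ k ∈ U, ((U.biUnion (fun l => (α k * β l - α l * β k).natAbs.primeFactors)).card : ℝ) := by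
      exact_mod_cast card_biUnion_le
    refine e1.trans ((sum_le_card_nsmul _ _ _ (fun k hk => ?_)).trans
      (?_ : _ • (L * (2 * (((2 * D + 1 : ℕ) : ℝ) * L))) ≤ _))
    · have e2 : ((U.biUnion (fun l => (α k * β l - α l * β k).natAbs.primeFactors)).card : ℝ) ≤
          ∑ l ∈ U, ((α k * β l - α l * β k).natAbs.primeFactors.card : ℝ) := by
        exact_mod_cast card_biUnion_le
      refine e2.trans ((sum_le_card_nsmul _ _ _ (fun l hl => ?_)).trans
        (?_ : _ • (2 * (((2 * D + 1 : ℕ) : ℝ) * L)) ≤ _))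
      · refine card_pf_le hX1 (2 * D + 1) _ ?_
        push_cast
        refine (abs_sub _ _).trans ?_
        rw [abs_mul, abs_mul]
        have e3 : |(α k : ℝ)| * |(β l : ℝ)| ≤ X ^ D * X ^ D :=
          mul_le_mul (h k hk).1 (h l hl).2 (abs_nonneg _) (by positivity)
        have e4 : |(α l : ℝ)| * |(β k : ℝ)| ≤ X ^ D * X ^ D :=
          mul_le_mul (h l hl).1 (h k hk).2 (abs_nonneg _) (by positivity)
        have e5 : X ^ (2 * D + 1) = (X ^ D * X ^ D) * X := by ring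
        rw [e5]
        have e6 : 0 ≤ X ^ D * X ^ D := by positivity
        nlinarith
      · rw [nsmul_eq_mul]
        exact mul_le_mul_of_nonneg_right hU (by positivity)
    · rw [nsmul_eq_mul]
      exact mul_le_mul_of_nonneg_right hU (by positivity)
  have h4 := card_insert_le ps ((g.primeFactors ∪
      U.biUnion (fun k => (α k).natAbs.primeFactors ∪
        (univ : Finset (Fin K)).biUnion (fun j => (α k * t j - β k).natAbs.primeFactors))) ∪
      U.biUnion (fun k => U.biUnion (fun l => (α k * β l - α l * β k).natAbs.primeFactors)))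
  have h5 := card_union_le (g.primeFactors ∪
      U.biUnion (fun k => (α k).natAbs.primeFactors ∪
        (univ : Finset (Fin K)).biUnion (fun j => (α k * t j - β k).natAbs.primeFactors)))
      (U.biUnion (fun k => U.biUnion (fun l => (α k * β l - α l * β k).natAbs.primeFactors)))
  have h6 := card_union_le g.primeFactors
      (U.biUnion (fun k => (α k).natAbs.primeFactors ∪
        (univ : Finset (Fin K)).biUnion (fun j => (α k * t j - β k).natAbs.primeFactors)))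
  have h7 : ((insert ps ((g.primeFactors ∪
      U.biUnion (fun k => (α k).natAbs.primeFactors ∪
        (univ : Finset (Fin K)).biUnion (fun j => (α k * t j - β k).natAbs.primeFactors))) ∪
      U.biUnion (fun k => U.biUnion (fun l => (α k * β l - α l * β k).natAbs.primeFactors)))).card : ℝ) ≤
      (g.primeFactors.card : ℝ) +
      ((U.biUnion (fun k => (α k).natAbs.primeFactors ∪
        (univ : Finset (Fin K)).biUnion (fun j => (α k * t j - β k).natAbs.primeFactors))).card : ℝ) +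
      ((U.biUnion (fun k => U.biUnion (fun l => (α k * β l - α l * β k).natAbs.primeFactors))).card : ℝ) + 1 := by
    exact_mod_cast (by omega)
  have h8 : 2 * ((2 * (D * L)) + L * ((2 * D + K * (2 * (D + 2))) * L) +
      L * (L * (2 * (((2 * D + 1 : ℕ) : ℝ) * L))) + 1) ≤ L ^ 4 := by
    push_cast
    have hL1' : 1 ≤ L := by linarith
    have e1 : L ≤ L ^ 3 := by
      calc L = L ^ 1 := (pow_one _).symm
        _ ≤ L ^ 3 := pow_le_pow_right₀ hL1' (by norm_num)
    have e2 : L ^ 2 ≤ L ^ 3 := pow_le_pow_right₀ hL1' (by norm_num)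
    have e3 : 1 ≤ L ^ 3 := one_le_pow₀ hL1'
    have e4 : 2 * ((2 * (D * L)) + L * ((2 * D + K * (2 * (D + 2))) * L) +
        L * (L * (2 * ((2 * (D : ℝ) + 1) * L))) + 1) ≤
        (4 * (3 + 10 * ((D : ℝ) + K + K * D))) * L ^ 3 := by
      have f1 : (D : ℝ) * L ≤ D * L ^ 3 := mul_le_mul_of_nonneg_left e1 hD0
      have f2 : (D : ℝ) * L ^ 2 ≤ D * L ^ 3 := mul_le_mul_of_nonneg_left e2 hD0
      have f3 : 0 ≤ (D : ℝ) * L ^ 3 := by positivity
      have f4 : (K : ℝ) * L ^ 2 ≤ K * L ^ 3 := mul_le_mul_of_nonneg_left e2 hK0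
      have f5 : (K : ℝ) * D * L ^ 2 ≤ K * D * L ^ 3 := mul_le_mul_of_nonneg_left e2 hKD
      have f6 : 0 ≤ (K : ℝ) * L ^ 3 := by positivity
      have f7 : 0 ≤ (K : ℝ) * D * L ^ 3 := by positivity
      have f8 : 2 * ((2 * (D * L)) + L * ((2 * D + K * (2 * (D + 2))) * L) +
        L * (L * (2 * ((2 * (D : ℝ) + 1) * L))) + 1) = 4 * (D * L) + 4 * (D * L ^ 2) + 4 * (K * D * L ^ 2) +
        8 * (K * L ^ 2) + 8 * (D * L ^ 3) + 4 * L ^ 3 + 2 := by ring
      have f9 : (4 * (3 + 10 * ((D : ℝ) + K + K * D))) * L ^ 3 = 12 * L ^ 3 + 40 * (D * L ^ 3) +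
        40 * (K * L ^ 3) + 40 * (K * D * L ^ 3) := by ring
      rw [f8, f9]
      linarith
    refine e4.trans ?_
    calc (4 * (3 + 10 * ((D : ℝ) + K + K * D))) * L ^ 3 ≤ L * L ^ 3 :=
          mul_le_mul_of_nonneg_right hL (by positivity)
      _ = L ^ 4 := by ring
  linarith

/-- the template for a tuple -/
theorem templT : ∃ η : ℝ, 0 < η ∧ ∀ m : ℕ, 1 ≤ m → ∃ K : ℕ, m ≤ K ∧ ∀ D : ℕ,
    ∃ (A : ℕ) (c₄ : ℝ), 0 < c₄ ∧ ∀ Z : ℕ, 4 ≤ Z → ∀ᶠ X : ℝ in atTop,
    ∀ (ps : ℕ) (S : Finset ℕ), GoodP Z ps → GoodS X S → BVat A X (WW X S ps) ps →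
    ∀ t : Fin K → ℕ, Function.Injective t → (∀ j, (t j : ℝ) ≤ (Real.log X) ^ 2) →
    ∀ (U : Finset ℕ), U.Nonempty → (U.card : ℝ) ≤ c₄ * Real.log X → ∀ (α β : ℕ → ℤ),
    (∀ k ∈ U, α k ≠ 0 ∧ ∀ j, α k * t j ≠ β k) → (∀ k ∈ U, |(α k : ℝ)| ≤ X ^ D ∧ |(β k : ℝ)| ≤ X ^ D) →
    (∀ k ∈ U, ∀ l ∈ U, k ≠ l → α k * β l ≠ α l * β k) → ∀ g : ℕ, g ≠ 0 → (g : ℝ) ≤ X ^ D →
    ∀ r : ℕ, (∀ j, (r + t j).Coprime (WW X S ps)) →
    ∀ col : Fin K → Fin m, (∀ e, K ≤ 2 * m * fib col e) →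
    ∀ bad : Finset ℕ, (bad.card : ℝ) ≤ X ^ (9 / 10 : ℝ) →
    ∃ n : ℕ, X < n ∧ (n : ℝ) ≤ 3 * X ∧ n ∉ bad ∧ n ≡ r [MOD WW X S ps] ∧
      (∃ E : Finset (Fin m), η * m ≤ E.card ∧ ∀ e ∈ E, ∃ j, col j = e ∧ (n + t j).Prime) ∧
      ∀ k ∈ U, ∃ q : ℕ, q.Prime ∧ (q : ℝ) ≤ X ^ (1 / 1000 : ℝ) ∧ ¬ q ∣ g ∧ (q : ℤ) ∣ α k * n + β k := by
  obtain ⟨η, hη, heng⟩ := engine
  refine ⟨η, hη, fun m hm => ?_⟩
  obtain ⟨K, hmK, hengK⟩ := heng m hm
  refine ⟨K, hmK, fun D => ?_⟩
  obtain ⟨A, c₃, hA4, hc₃, hw⟩ := weightsT K (K + 4)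
  refine ⟨A, min c₃ 1, lt_min hc₃ one_pos, fun Z hZ4 => ?_⟩
  filter_upwards [hw Z, hengK Z hZ4, eventually_ge_atTop 4,
    Real.tendsto_log_atTop.eventually_ge_atTop (4 * (3 + 10 * ((D + K + K * D : ℕ) : ℝ)))] with X hwX hgX hX4 hL
  intro ps S hps hS hBV t htinj htl U hUne hUc α β hne hle hdet g hg0 hgD r hr col hcol bad hbad
  have hX0 : 0 < X := by linarith
  have hD0 : (0 : ℝ) ≤ ((D + K + K * D : ℕ) : ℝ) := Nat.cast_nonneg _
  have hL0 : 0 < Real.log X := by linarith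
  have hUc3 : (U.card : ℝ) ≤ c₃ * Real.log X :=
    hUc.trans (mul_le_mul_of_nonneg_right (min_le_left _ _) hL0.le)
  have hUc1 : (U.card : ℝ) ≤ Real.log X := by
    have := hUc.trans (mul_le_mul_of_nonneg_right (min_le_right c₃ 1) hL0.le)
    linarith
  set Bx : Finset ℕ := insert ps ((g.primeFactors ∪
      U.biUnion (fun k => (α k).natAbs.primeFactors ∪
        (univ : Finset (Fin K)).biUnion (fun j => (α k * t j - β k).natAbs.primeFactors))) ∪
      U.biUnion (fun k => U.biUnion (fun l => (α k * β l - α l * β k).natAbs.primeFactors))) with hBx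
  obtain ⟨PP, hPP, hres⟩ := hwX ps S hps hBV t Bx U (by rw [hBx]; exact mem_insert_self _ _)
    (card_BxT K D X hX4 hL ps g hgD U hUc1 α β t htl hle) hUne hUc3
  have hPg : ∀ q ∈ PP, ¬ q ∣ g := by
    intro q hq hd
    apply (hPP q hq).2.2.2
    rw [hBx, mem_insert, mem_union, mem_union]
    right; left; left
    rw [Nat.mem_primeFactors]
    exact ⟨(hPP q hq).1, hd, hg0⟩
  have hPα : ∀ q ∈ PP, ∀ k ∈ U, ¬ (q : ℤ) ∣ α k := by
    intro q hq k hk hd
    apply (hPP q hq).2.2.2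
    rw [hBx, mem_insert, mem_union, mem_union]
    right; left; right
    rw [mem_biUnion]
    refine ⟨k, hk, ?_⟩
    rw [mem_union, Nat.mem_primeFactors]
    exact Or.inl ⟨(hPP q hq).1, Int.natCast_dvd.1 hd, Int.natAbs_ne_zero.2 (hne k hk).1⟩
  have hPβ : ∀ q ∈ PP, ∀ k ∈ U, ∀ j, ¬ (q : ℤ) ∣ α k * t j - β k := by
    intro q hq k hk j hd
    apply (hPP q hq).2.2.2
    rw [hBx, mem_insert, mem_union, mem_union]
    right; left; right
    rw [mem_biUnion]
    refine ⟨k, hk, ?_⟩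
    rw [mem_union, mem_biUnion]
    right
    refine ⟨j, mem_univ _, ?_⟩
    rw [Nat.mem_primeFactors]
    exact ⟨(hPP q hq).1, Int.natCast_dvd.1 hd, Int.natAbs_ne_zero.2 (sub_ne_zero.2 ((hne k hk).2 j))⟩
  have hPd : ∀ q ∈ PP, ∀ k ∈ U, ∀ l ∈ U, k ≠ l → ¬ (q : ℤ) ∣ α k * β l - α l * β k := by
    intro q hq k hk l hl hkl hd
    apply (hPP q hq).2.2.2
    rw [hBx, mem_insert, mem_union]
    right; right
    rw [mem_biUnion]
    refine ⟨k, hk, ?_⟩
    rw [mem_biUnion]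
    refine ⟨l, hl, ?_⟩
    rw [Nat.mem_primeFactors]
    exact ⟨(hPP q hq).1, Int.natCast_dvd.1 hd, Int.natAbs_ne_zero.2 (sub_ne_zero.2 (hdet k hk l hl hkl))⟩
  -- the residues
  have hex : ∀ (q : ℕ) (k : ↥U), ∃ ρ : ℤ, q ∈ PP → (q : ℤ) ∣ α k * ρ + β k := by
    intro q k
    by_cases hq : q ∈ PP
    · obtain ⟨ρ, hρ⟩ := solve q (hPP q hq).1 (α k) (β k) (hPα q hq k k.2)
      exact ⟨ρ, fun _ => hρ⟩
    · exact ⟨0, fun h => absurd h hq⟩
  choose res hresd using hex
  obtain ⟨V, T, Z₁, M, M', M₂, e₁, e₂, e₃, w1, w2, w3, w4, w5, w6, w7, w8, w9, we, w10, w11, w12, w13, w14, w15⟩ :=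
    hres res
    (by
      intro q hq k l hkl hd
      have h1 := hresd q k hq
      have h2 := hresd q l hq
      apply hPd q hq k k.2 l l.2 (fun h => hkl (Subtype.ext h))
      have h3 : α k * β l - α l * β k = α k * (α l * res q l + β l) - α l * (α k * res q k + β k) +
          α k * α l * (res q k - res q l) := by ring
      rw [h3]
      exact dvd_add (dvd_sub (h2.mul_left _) (h1.mul_left _)) (hd.mul_left _))
    (by
      intro q hq k j hd
      have h1 := hresd q k hq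
      apply hPβ q hq k k.2 j
      have h2 := dvd_sub (hd.mul_left (α k)) h1
      have h3 : α k * ((t j : ℤ) + res q k) - (α k * res q k + β k) = α k * t j - β k := by ring
      rwa [h3] at h2)
  obtain ⟨n, hXn, hn3, hnb, hnr, hTn, E, hE1, hE2⟩ := hgX ps S hps hS t htinj htl r hr
    V T Z₁ M M' M₂ e₁ e₂ e₃ w1 w2 w4 w5 w6 w7 w8 w9 we w10 w11 w12 w13 w14 w15 col hcol bad hbad
  refine ⟨n, hXn, hn3, hnb, hnr, ⟨E, hE1, hE2⟩, fun k hk => ?_⟩
  obtain ⟨q, hq, hqd⟩ := w3 n hTn ⟨k, hk⟩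
  refine ⟨q, (hPP q hq).1, (hPP q hq).2.2.1, hPg q hq, ?_⟩
  have h1 := hresd q ⟨k, hk⟩ hq
  have h2 : α k * (n : ℤ) + β k = α k * ((n : ℤ) - res q ⟨k, hk⟩) + (α k * res q ⟨k, hk⟩ + β k) := by ring
  rw [h2]
  exact dvd_add (hqd.mul_left _) h1

end Pool.Agent.K7.H61.FT
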