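import Pool.Agent.K7.H61.FT.Cls

set_option autoImplicit false
set_option maxHeartbeats 4000000

/-! # Far-apart linear forms composite at the same tuples of primes (helper61) -/

namespace Pool.Agent.K7.H61.FT

open Finset Filter
open Pool.Agent.H378R2
open Pool.Agent.H312R2.RG (BVat)
open Pool.Agent.TH101.RG
open Pool.Agent.H362R2.RQ (fib)
open Pool.Agent.K7.H61.FF
open Pool.Agent.H318R2.Cr (Pz V one_sub_inv_pos)

open scoped Classical

/-- the product over the small primes of the big modulus -/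
theorem prod_small1 (d : ℕ) (hd : 0 < d) : ∃ C : ℝ, 0 < C ∧ ∀ᶠ X : ℝ in atTop, ∀ (ps : ℕ) (S : Finset ℕ),
    GoodP 2 ps → GoodS X S → ∀ z : ℤ, z ≠ 0 →
    ∏ p ∈ PW X S ps, (if (p : ℤ) ∣ (d : ℤ) * z then (1 : ℝ) else 1 - 1 / (p : ℝ)) ≤
      C / Real.log (Real.log X) * wI z := by
  obtain ⟨c₁, c₂, hc₁, hc₁₂, hV⟩ := Pool.Agent.H318R2.Cr.cz_bounds
  have hc₂ : 0 < c₂ := hc₁.trans_le hc₁₂
  have hd1 : (0 : ℝ) < d := by exact_mod_cast hd
  refine ⟨2 * c₂ * Real.exp (2 * 1) * d, by positivity, ?_⟩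
  have t1 := Real.tendsto_log_atTop
  have t2 : Tendsto (fun y : ℝ => Real.log (Real.log y)) atTop atTop := t1.comp t1
  filter_upwards [t1.eventually_ge_atTop 10000000, t2.eventually_ge_atTop 10] with X hL hLL
  intro ps S hps hS z hz
  set L := Real.log X with hLd
  set N : ℕ := yy X with hN
  have hN0 : (N : ℝ) ≤ L / 1000 := Nat.floor_le (by positivity)
  have hN1 : L / 1000 < N + 1 := Nat.lt_floor_add_one _
  have hN2 : 2 ≤ N := by
    have : (2 : ℝ) ≤ L / 1000 - 1 := by linarith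
    have h2 : (2 : ℝ) < N + 1 := by linarith
    have h3 : 2 < N + 1 := by exact_mod_cast h2
    omega
  have hNr : (2 : ℝ) ≤ N := by exact_mod_cast hN2
  have hlogN : Real.log L / 2 ≤ Real.log N := by
    have h1 : L ≤ (N : ℝ) ^ 2 := by
      have h2 : L / 2000 ≤ N := by linarith
      have h3 : (L / 2000) ^ 2 ≤ (N : ℝ) ^ 2 := pow_le_pow_left₀ (by positivity) h2 2
      refine le_trans ?_ h3
      rw [div_pow, le_div_iff₀ (by norm_num)]
      have h4 : 2000 ^ 2 ≤ L * 4 := by linarith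
      nlinarith
    have h2 := Real.log_le_log (by linarith) h1
    rw [Real.log_pow] at h2
    push_cast at h2
    linarith
  have hlL : 0 < Real.log L := by linarith
  have hlN : 0 < Real.log N := by linarith
  have h1 : ∏ p ∈ PW X S ps, (if (p : ℤ) ∣ (d : ℤ) * z then (1 : ℝ) else 1 - 1 / (p : ℝ)) ≤
      ∏ p ∈ PW X S ps, (if ∀ j : Fin 1, ¬ (p : ℤ) ∣ (d : ℤ) * z - (fun _ => (0 : ℤ)) j then 1 - 1 / (p : ℝ) else 1) := by
    apply le_of_eq
    apply prod_congr rfl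
    intro p hp
    by_cases h : (p : ℤ) ∣ (d : ℤ) * z
    · rw [if_pos h, if_neg]
      push Not
      exact ⟨0, by simpa using h⟩
    · rw [if_neg h, if_pos (by intro j; simpa using h)]
  have hPS : PW X S ps ⊆ Pz N := by
    intro p hp
    have := mem_PW.1 hp
    rw [Pool.Agent.H318R2.Cr.mem_Pz]
    exact ⟨this.2.1, this.1⟩
  have hSm : ∀ p ∈ Pz N, p.Prime := fun p hp => (Pool.Agent.H318R2.Cr.mem_Pz.1 hp).1
  have hC : ∑ p ∈ Pz N \ PW X S ps, (1 : ℝ) / p ≤ 1 := by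
    have h2 : Pz N \ PW X S ps ⊆ S ∪ ({ps} : Finset ℕ).filter Nat.Prime := by
      intro p hp
      rw [Finset.mem_sdiff, Pool.Agent.H318R2.Cr.mem_Pz, mem_PW] at hp
      obtain ⟨⟨hpp, hpN⟩, hn⟩ := hp
      rw [mem_union, mem_filter, mem_singleton]
      by_cases hpS : p ∈ S
      · exact Or.inl hpS
      · right
        refine ⟨?_, hpp⟩
        by_contra hne
        exact hn ⟨hpN, hpp, hpS, hne⟩
    refine (sum_le_sum_of_subset_of_nonneg h2 fun p _ _ => by positivity).trans ?_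
    refine (sum_union_le' (fun p : ℕ => (1 : ℝ) / p) (fun p => by positivity)).trans ?_
    have h3 := hS.2
    have h4 : 6 / (Real.log (Real.log X)) ^ 2 ≤ 1 / 2 := by
      rw [div_le_div_iff₀ (by positivity) (by norm_num)]
      nlinarith
    have h5 : ∑ p ∈ ({ps} : Finset ℕ).filter Nat.Prime, (1 : ℝ) / p ≤ 1 / 2 := by
      rw [filter_singleton]
      split_ifs with h
      · rw [sum_singleton]
        have : (2 : ℝ) ≤ ps := by exact_mod_cast h.two_le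
        exact one_div_le_one_div_of_le (by norm_num) this
      · simp
    linarith
  have hdz : (d : ℤ) * z ≠ 0 := mul_ne_zero (by exact_mod_cast hd.ne') hz
  have h2 := prodZ 1 (fun _ => (0 : ℤ)) (PW X S ps) (Pz N) hPS hSm 1 hC ((d : ℤ) * z) (fun _ => hdz)
  refine h1.trans (h2.trans ?_)
  have h3 : ∏ j : Fin 1, ((((d : ℤ) * z - (fun _ => (0 : ℤ)) j).natAbs : ℝ) /
      ((((d : ℤ) * z - (fun _ => (0 : ℤ)) j).natAbs.totient : ℕ) : ℝ)) ≤ d * wI z := by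
    simp only [univ_unique, Fin.default_eq_zero, Fin.isValue, sub_zero, prod_const, card_singleton, pow_one]
    have h4 : wI ((d : ℤ) * z) ≤ wI d * wI z := wI_mul_le (by exact_mod_cast hd.ne') hz
    refine h4.trans ?_
    apply mul_le_mul_of_nonneg_right _ (wI_nonneg z)
    unfold wI
    rw [Int.natAbs_natCast]
    apply div_le_self hd1.le
    exact_mod_cast Nat.totient_pos.2 hd
  have h4 : ∏ p ∈ Pz N, (1 - 1 / (p : ℝ)) ≤ 2 * c₂ / Real.log L := by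
    have h5 := (hV N hN2).2
    unfold V at h5
    rw [← le_div_iff₀ hlN] at h5
    refine h5.trans ?_
    rw [div_le_div_iff₀ hlN hlL]
    have h6 := mul_le_mul_of_nonneg_left hlogN hc₂.le
    linarith
  have h5 : 0 ≤ ∏ p ∈ Pz N, (1 - 1 / (p : ℝ)) := prod_nonneg fun p hp => (one_sub_inv_pos (hSm p hp)).le
  calc (∏ p ∈ Pz N, (1 - 1 / (p : ℝ))) * Real.exp (2 * 1) *
        ∏ j : Fin 1, ((((d : ℤ) * z - (fun _ => (0 : ℤ)) j).natAbs : ℝ) /
          ((((d : ℤ) * z - (fun _ => (0 : ℤ)) j).natAbs.totient : ℕ) : ℝ))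
      ≤ (2 * c₂ / Real.log L) * Real.exp (2 * 1) * (d * wI z) := by
        apply mul_le_mul _ h3 _ (by positivity)
        · exact mul_le_mul_of_nonneg_right h4 (Real.exp_pos _).le
        · exact prod_nonneg fun _ _ => div_nonneg (Nat.cast_nonneg _) (Nat.cast_nonneg _)
    _ = _ := by ring

/-- the template with the forms indexed by an arbitrary type -/
theorem templTI : ∃ η : ℝ, 0 < η ∧ ∀ m : ℕ, 1 ≤ m → ∃ K : ℕ, m ≤ K ∧ ∀ D : ℕ,
    ∃ (A : ℕ) (c₄ : ℝ), 0 < c₄ ∧ ∀ Z : ℕ, 4 ≤ Z → ∀ᶠ X : ℝ in atTop,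
    ∀ (ps : ℕ) (S : Finset ℕ), GoodP Z ps → GoodS X S → BVat A X (WW X S ps) ps →
    ∀ t : Fin K → ℕ, Function.Injective t → (∀ j, (t j : ℝ) ≤ (Real.log X) ^ 2) →
    ∀ (ι : Type) (U : Finset ι), (U.card : ℝ) ≤ c₄ * Real.log X → ∀ (α β : ι → ℤ),
    (∀ k ∈ U, α k ≠ 0 ∧ ∀ j, α k * t j ≠ β k) → (∀ k ∈ U, |(α k : ℝ)| ≤ X ^ D ∧ |(β k : ℝ)| ≤ X ^ D) →
    (∀ k ∈ U, ∀ l ∈ U, k ≠ l → α k * β l ≠ α l * β k) → ∀ g : ℕ, g ≠ 0 → (g : ℝ) ≤ X ^ D →
    ∀ r : ℕ, (∀ j, (r + t j).Coprime (WW X S ps)) →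
    ∀ col : Fin K → Fin m, (∀ e, K ≤ 2 * m * fib col e) →
    ∀ bad : Finset ℕ, (bad.card : ℝ) ≤ X ^ (9 / 10 : ℝ) →
    ∃ n : ℕ, X < n ∧ (n : ℝ) ≤ 3 * X ∧ n ∉ bad ∧ n ≡ r [MOD WW X S ps] ∧
      (∃ E : Finset (Fin m), η * m ≤ E.card ∧ ∀ e ∈ E, ∃ j, col j = e ∧ (n + t j).Prime) ∧
      ∀ k ∈ U, ∃ q : ℕ, q.Prime ∧ (q : ℝ) ≤ X ^ (1 / 1000 : ℝ) ∧ ¬ q ∣ g ∧ (q : ℤ) ∣ α k * n + β k := by
  obtain ⟨η, hη, htem⟩ := templT
  refine ⟨η, hη, fun m hm => ?_⟩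
  obtain ⟨K, hmK, hK⟩ := htem m hm
  refine ⟨K, hmK, fun D => ?_⟩
  obtain ⟨A, c₄, hc₄, h⟩ := hK D
  refine ⟨A, c₄, hc₄, fun Z hZ => ?_⟩
  filter_upwards [h Z hZ, Real.tendsto_log_atTop.eventually_ge_atTop (1 / c₄), eventually_ge_atTop 1]
    with X hX hL hX1
  intro ps S hps hS hBV t htinj htl ι U hUc α β hne hle hdet g hg0 hgD r hr col hcol bad hbad
  set n := U.card with hn
  set e := U.equivFin with he
  set α' : ℕ → ℤ := fun k => if hk : k < n then α (e.symm ⟨k, hk⟩ : ↥U) else 1 with hα'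
  set β' : ℕ → ℤ := fun k => if hk : k < n then β (e.symm ⟨k, hk⟩ : ↥U) else -1 with hβ'
  have hmax : ∀ k ∈ range (max n 1), n ≠ 0 → k < n := by
    intro k hk hn0
    rw [mem_range] at hk
    omega
  have hXD : 1 ≤ X ^ D := one_le_pow₀ hX1
  obtain ⟨p, hXp, hp3, hpb, hpr, hE, hall⟩ := hX ps S hps hS hBV t htinj htl (range (max n 1)) ⟨0, by simp⟩
    (by
      rw [card_range]
      rw [div_le_iff₀ hc₄, mul_comm] at hL
      rcases le_or_gt n 1 with h1 | h1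
      · rw [max_eq_right h1]
        push_cast
        exact hL
      · rw [max_eq_left h1.le]
        exact hUc) α' β'
    (by
      intro k hk
      simp only [hα', hβ']
      split_ifs with h1
      · exact hne _ (e.symm ⟨k, h1⟩).2
      · refine ⟨one_ne_zero, fun j => ?_⟩
        omega)
    (by
      intro k hk
      simp only [hα', hβ']
      split_ifs with h1
      · exact hle _ (e.symm ⟨k, h1⟩).2
      · simpa using hXD)
    (by
      intro k hk l hl hkl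
      rcases Nat.eq_zero_or_pos n with h0 | h0
      · rw [h0] at hk hl
        simp only [Nat.zero_le, sup_of_le_right, range_one, mem_singleton] at hk hl
        exact absurd (hk.trans hl.symm) hkl
      · have hk' := hmax k hk (by omega)
        have hl' := hmax l hl (by omega)
        simp only [hα', hβ', dif_pos hk', dif_pos hl']
        apply hdet _ (e.symm ⟨k, hk'⟩).2 _ (e.symm ⟨l, hl'⟩).2
        intro h1
        have h2 := e.symm.injective (Subtype.ext h1)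
        exact hkl (by simpa using h2))
    g hg0 hgD r hr col hcol bad hbad
  refine ⟨p, hXp, hp3, hpb, hpr, hE, fun k hk => ?_⟩
  have hlt : ((e ⟨k, hk⟩ : Fin n) : ℕ) < n := (e ⟨k, hk⟩).2
  have hk2 := hall (e ⟨k, hk⟩ : Fin n) (by rw [mem_range]; omega)
  simp only [hα', hβ', dif_pos hlt] at hk2
  simpa using hk2

/-- the resultant of the form and the tuple -/
def rsl {K : ℕ} (t : Fin K → ℕ) (l : ℤ × ℤ) : ℤ := l.1 * ∏ j, (l.1 * t j - l.2)

theorem rsl_ne {K : ℕ} {t : Fin K → ℕ} {l : ℤ × ℤ} (h : l.1 ≠ 0 ∧ ∀ j, l.1 * t j ≠ l.2) : rsl t l ≠ 0 :=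
  mul_ne_zero h.1 (prod_ne_zero_iff.2 fun j _ => sub_ne_zero.2 (h.2 j))

/-- pairwise non-proportional forms -/
theorem farT_prim : ∃ η : ℝ, 0 < η ∧ ∀ m : ℕ, 1 ≤ m → ∃ K : ℕ, m ≤ K ∧ ∀ (D d : ℕ), Squarefree d →
    ∃ c : ℝ, 0 < c ∧ ∀ᶠ X : ℝ in atTop,
    ∀ t : Fin K → ℕ, Function.Injective t → (∀ j, (t j : ℝ) ≤ (Real.log X) ^ 2) →
    (∀ p : ℕ, p.Prime → ∃ v : ℕ, ∀ j, ¬ p ∣ v + t j) → ∀ h : ℕ, (∀ j, (h + t j).Coprime d) →
    ∀ g : ℕ, g ≠ 0 → (g : ℝ) ≤ X ^ D → ∀ 𝓛 : Finset (ℤ × ℤ),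
    (∀ l ∈ 𝓛, l.1 ≠ 0 ∧ ∀ j, l.1 * t j ≠ l.2) → (∀ l ∈ 𝓛, |(l.1 : ℝ)| ≤ X ^ D ∧ |(l.2 : ℝ)| ≤ X ^ D) →
    (∀ k ∈ 𝓛, ∀ l ∈ 𝓛, k ≠ l → k.1 * l.2 ≠ l.1 * k.2) →
    ∑ l ∈ 𝓛, wI (g * rsl t l) ≤ c * (Real.log X * Real.log (Real.log X)) →
    ∀ col : Fin K → Fin m, (∀ e, K ≤ 2 * m * fib col e) →
    ∀ bad : Finset ℕ, (bad.card : ℝ) ≤ X ^ (9 / 10 : ℝ) →
    ∃ n : ℕ, X < n ∧ (n : ℝ) ≤ 3 * X ∧ n ∉ bad ∧ n ≡ h [MOD d] ∧
      (∃ E : Finset (Fin m), η * m ≤ E.card ∧ ∀ e ∈ E, ∃ j, col j = e ∧ (n + t j).Prime) ∧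
      ∀ l ∈ 𝓛, ∃ q : ℕ, q.Prime ∧ (q : ℝ) ≤ X ^ (1 / 1000 : ℝ) ∧ ¬ q ∣ g ∧ (q : ℤ) ∣ l.1 * n + l.2 := by
  obtain ⟨η, hη, htem⟩ := templTI
  refine ⟨η, hη, fun m hm => ?_⟩
  obtain ⟨K, hmK, hK⟩ := htem m hm
  refine ⟨K, hmK, fun D d hd => ?_⟩
  obtain ⟨Abv, c₄, hc₄, ht⟩ := hK (D + 1)
  have hd0 : 0 < d := Nat.pos_of_ne_zero hd.ne_zero
  obtain ⟨C, hC, hprod⟩ := prod_small1 d hd0
  refine ⟨c₄ / C, by positivity, ?_⟩
  obtain ⟨X1, hbv⟩ := bvrel_holds Abv (max 4 d)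
  have t1 := Real.tendsto_log_atTop
  have t2 : Tendsto (fun y : ℝ => Real.log (Real.log y)) atTop atTop := t1.comp t1
  filter_upwards [ht (max 4 d) (le_max_left _ _), hprod, eventually_ge_atTop X1, eventually_ge_atTop (4 + d : ℝ),
    t1.eventually_ge_atTop 1, t1.eventually_ge_atTop (1000 * (max 4 d : ℕ)),
    t2.eventually_ge_atTop ((max 4 d : ℕ) + 1)] with X htX hprodX hX1 hX4 hL1 hLd hL2d
  intro t htinj htl hadm h hhd g hg0 hgD 𝓛 hne hle hdet hw col hcol bad hbad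
  obtain ⟨ps, S, hps, hS, hBV⟩ := hbv X hX1
  have hdr : (1 : ℝ) ≤ d := by exact_mod_cast hd0
  have hX0 : 0 < X := by linarith
  have hlL : 0 < Real.log (Real.log X) := by
    have : (0 : ℝ) ≤ (max 4 d : ℕ) := Nat.cast_nonneg _
    linarith
  choose! v hv using hadm
  set u : ℕ → ℕ := fun p => if p ∣ d then h else v p with hu
  have hup : ∀ p, p.Prime → ∀ j, ¬ p ∣ u p + t j := by
    intro p hp j
    simp only [hu]
    split_ifs with hpd
    · intro hph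
      exact hp.one_lt.ne' (Nat.dvd_one.1 ((hhd j) ▸ Nat.dvd_gcd hph hpd))
    · exact hv p hp j
  obtain ⟨ρ, hρ, hcard⟩ := avg_classesT t (g * d) u (fun l : ℤ × ℤ => l.1) (fun l : ℤ × ℤ => l.2) (PW X S ps)
    (fun p hp => (mem_PW.1 hp).2.1) (fun p hp => hup p (mem_PW.1 hp).2.1) 𝓛
  set U := 𝓛.filter (fun k => ∀ p ∈ PW X S ps, ¬ p ∣ g * d → ¬ (p : ℤ) ∣ k.1 * ρ p + k.2) with hU
  have hUc : (U.card : ℝ) ≤ c₄ * Real.log X := by
    refine hcard.trans ?_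
    have h1 : ∀ l ∈ 𝓛, ∏ p ∈ PW X S ps, (if p ∣ g * d ∨ (p : ℤ) ∣ l.1 ∨ (∃ j, (p : ℤ) ∣ l.1 * t j - l.2)
        then (1 : ℝ) else 1 - 1 / (p : ℝ)) ≤ C / Real.log (Real.log X) * wI (g * rsl t l) := by
      intro l hl
      have hz : (g : ℤ) * rsl t l ≠ 0 := mul_ne_zero (by exact_mod_cast hg0) (rsl_ne (hne l hl))
      refine le_trans (le_of_eq ?_)
        (hprodX ps S (goodP_mono (le_trans (by norm_num) (le_max_left 4 d)) hps) hS _ hz)
      apply prod_congr rfl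
      intro p hp
      have hpp := Nat.prime_iff_prime_int.1 (mem_PW.1 hp).2.1
      have e1 : (p ∣ g * d ∨ (p : ℤ) ∣ l.1 ∨ (∃ j, (p : ℤ) ∣ l.1 * t j - l.2)) ↔
          (p : ℤ) ∣ (d : ℤ) * ((g : ℤ) * rsl t l) := by
        unfold rsl
        rw [hpp.dvd_mul, hpp.dvd_mul, hpp.dvd_mul, Int.natCast_dvd_natCast, Int.natCast_dvd_natCast,
          (mem_PW.1 hp).2.1.dvd_mul, Prime.dvd_finsetProd_iff hpp]
        constructor
        · rintro ((h1 | h1) | h1 | ⟨j, hj⟩)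
          · exact Or.inr (Or.inl h1)
          · exact Or.inl h1
          · exact Or.inr (Or.inr (Or.inl h1))
          · exact Or.inr (Or.inr (Or.inr ⟨j, mem_univ _, hj⟩))
        · rintro (h1 | h1 | h1 | ⟨j, -, hj⟩)
          · exact Or.inl (Or.inr h1)
          · exact Or.inl (Or.inl h1)
          · exact Or.inr (Or.inl h1)
          · exact Or.inr (Or.inr ⟨j, hj⟩)
      by_cases h3 : (p : ℤ) ∣ (d : ℤ) * ((g : ℤ) * rsl t l)
      · rw [if_pos h3, if_pos (e1.2 h3)]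
      · rw [if_neg h3, if_neg (fun h4 => h3 (e1.1 h4))]
    refine (sum_le_sum h1).trans ?_
    rw [← mul_sum]
    calc C / Real.log (Real.log X) * ∑ l ∈ 𝓛, wI (g * rsl t l) ≤
        C / Real.log (Real.log X) * (c₄ / C * (Real.log X * Real.log (Real.log X))) :=
          mul_le_mul_of_nonneg_left hw (by positivity)
      _ = c₄ * Real.log X := by
          field_simp
  obtain ⟨r, hr⟩ := Nat.chineseRemainderOfFinset ρ (fun p => p) (PW X S ps)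
    (fun p hp => (mem_PW.1 hp).2.1.ne_zero)
    (fun p hp q hq hpq => (Nat.coprime_primes (mem_PW.1 (by simpa using hp)).2.1
      (mem_PW.1 (by simpa using hq)).2.1).2 hpq)
  have hrc : ∀ j, (r + t j).Coprime (WW X S ps) := by
    intro j
    unfold WW
    rw [Nat.coprime_prod_right_iff]
    intro p hp
    have hpp := (mem_PW.1 hp).2.1
    rw [Nat.coprime_comm, Nat.Prime.coprime_iff_not_dvd hpp]
    intro hd
    apply (hρ p hp).1 j
    have h1 : r + t j ≡ ρ p + t j [MOD p] := (hr p hp).add_right _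
    exact (Nat.modEq_zero_iff_dvd).1 (h1.symm.trans ((Nat.modEq_zero_iff_dvd).2 hd))
  have hXD1 : X ^ D ≤ X ^ (D + 1) := pow_le_pow_right₀ (by linarith) (by omega)
  have hUL : U ⊆ 𝓛 := filter_subset _ _
  obtain ⟨n, hXn, hn3, hnb, hnr, hE, hUn⟩ := htX ps S hps hS hBV t htinj htl (ℤ × ℤ) U hUc
    (fun l => l.1) (fun l => l.2)
    (fun l hl => hne l (hUL hl))
    (fun l hl => ⟨(hle l (hUL hl)).1.trans hXD1, (hle l (hUL hl)).2.trans hXD1⟩)
    (fun k hk l hl => hdet k (hUL hk) l (hUL hl)) (g * d) (mul_ne_zero hg0 hd0.ne')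
    (by
      push_cast
      rw [pow_succ]
      exact mul_le_mul hgD (by linarith) (by linarith) (by positivity)) r hrc col hcol bad hbad
  refine ⟨n, hXn, hn3, hnb, ?_, hE, fun l hl => ?_⟩
  · apply modEq_of_primes hd
    intro p hp
    have hpp := Nat.prime_of_mem_primeFactors hp
    have hpd := Nat.dvd_of_mem_primeFactors hp
    have hpled : p ≤ d := Nat.le_of_dvd hd0 hpd
    have hpPW := small_mem_PW hLd hL2d hps le_rfl hS hpp (hpled.trans (le_max_right 4 d))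
    have h1 := hr p hpPW
    have h2 : ρ p = u p := (hρ p hpPW).2 (hpd.trans (dvd_mul_left d g))
    have h3 : u p = h := by simp only [hu]; rw [if_pos hpd]
    rw [h2, h3] at h1
    exact (hnr.of_dvd ((prime_dvd_WW hpp).2 hpPW)).trans h1
  · by_cases hlU : l ∈ U
    · obtain ⟨q, h1, h2, h3, h4⟩ := hUn l hlU
      exact ⟨q, h1, h2, fun h5 => h3 (h5.mul_right d), h4⟩
    · rw [hU, mem_filter, not_and] at hlU
      have h1 := hlU hl
      push Not at h1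
      obtain ⟨p, hp, hpg, hpz⟩ := h1
      have hpp := (mem_PW.1 hp).2.1
      refine ⟨p, hpp, le_rpow_of_le_yy hX0 (by linarith) (mem_PW.1 hp).1, fun h5 => hpg (h5.mul_right d), ?_⟩
      have h6 : (p : ℤ) ∣ (n : ℤ) - ρ p :=
        Nat.modEq_iff_dvd.1 (((hnr.of_dvd ((prime_dvd_WW hpp).2 hp)).trans (hr p hp)).symm)
      have h7 : l.1 * (n : ℤ) + l.2 = l.1 * ((n : ℤ) - ρ p) + (l.1 * ρ p + l.2) := by ring
      rw [h7]
      exact dvd_add (h6.mul_left _) hpz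

/-- arbitrary forms -/
theorem farT_forms : ∃ η : ℝ, 0 < η ∧ ∀ m : ℕ, 1 ≤ m → ∃ K : ℕ, m ≤ K ∧ ∀ (D d : ℕ), Squarefree d →
    ∃ c : ℝ, 0 < c ∧ ∀ᶠ X : ℝ in atTop,
    ∀ t : Fin K → ℕ, Function.Injective t → (∀ j, (t j : ℝ) ≤ (Real.log X) ^ 2) →
    (∀ p : ℕ, p.Prime → ∃ v : ℕ, ∀ j, ¬ p ∣ v + t j) → ∀ h : ℕ, (∀ j, (h + t j).Coprime d) →
    ∀ g : ℕ, g ≠ 0 → (g : ℝ) ≤ X ^ D → ∀ 𝓛 : Finset (ℤ × ℤ),
    (∀ l ∈ 𝓛, l.1 ≠ 0 ∧ ∀ j, l.1 * t j ≠ l.2) → (∀ l ∈ 𝓛, |(l.1 : ℝ)| ≤ X ^ D ∧ |(l.2 : ℝ)| ≤ X ^ D) →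
    ∑ l ∈ 𝓛, wI (g * rsl t l) ≤ c * (Real.log X * Real.log (Real.log X)) →
    ∀ col : Fin K → Fin m, (∀ e, K ≤ 2 * m * fib col e) →
    ∀ bad : Finset ℕ, (bad.card : ℝ) ≤ X ^ (9 / 10 : ℝ) →
    ∃ n : ℕ, X < n ∧ (n : ℝ) ≤ 3 * X ∧ n ∉ bad ∧ n ≡ h [MOD d] ∧
      (∃ E : Finset (Fin m), η * m ≤ E.card ∧ ∀ e ∈ E, ∃ j, col j = e ∧ (n + t j).Prime) ∧
      ∀ l ∈ 𝓛, ∃ q : ℕ, q.Prime ∧ (q : ℝ) ≤ X ^ (1 / 1000 : ℝ) ∧ ¬ q ∣ g ∧ (q : ℤ) ∣ l.1 * n + l.2 := by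
  obtain ⟨η, hη, htem⟩ := farT_prim
  refine ⟨η, hη, fun m hm => ?_⟩
  obtain ⟨K, hmK, hK⟩ := htem m hm
  refine ⟨K, hmK, fun D d hd => ?_⟩
  obtain ⟨c, hc, hX⟩ := hK D d hd
  refine ⟨c, hc, ?_⟩
  choose red τ hred using exists_prim
  filter_upwards [hX] with X hX
  intro t htinj htl hadm h hh g hg0 hgD 𝓛 hne hle hw col hcol bad hbad
  have hgz : (g : ℤ) ≠ 0 := by exact_mod_cast hg0
  have ht0 : ∀ l ∈ 𝓛, τ l ≠ 0 := by
    intro l hl h0
    have := (hred l (hne l hl).1).1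
    rw [h0, zero_mul] at this
    exact (hne l hl).1 this
  have habs : ∀ t x : ℤ, t ≠ 0 → |(x : ℝ)| ≤ |((t * x : ℤ) : ℝ)| := by
    intro t x ht
    push_cast
    rw [abs_mul]
    have h1 : (1 : ℝ) ≤ |(t : ℝ)| := by
      have : 1 ≤ |t| := Int.one_le_abs ht
      exact_mod_cast this
    exact le_mul_of_one_le_left (abs_nonneg _) h1
  obtain ⟨p, hXp, hp3, hpb, hpd, hE, hmain⟩ := hX t htinj htl hadm h hh g hg0 hgD (𝓛.image red)
    (by
      intro m hm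
      rw [mem_image] at hm
      obtain ⟨l, hl, rfl⟩ := hm
      obtain ⟨h1, h2, h3, h4⟩ := hred l (hne l hl).1
      refine ⟨h3.ne', fun j h0 => ?_⟩
      apply (hne l hl).2 j
      rw [h1, h2, ← h0]
      ring)
    (by
      intro m hm
      rw [mem_image] at hm
      obtain ⟨l, hl, rfl⟩ := hm
      obtain ⟨h1, h2, h3, h4⟩ := hred l (hne l hl).1
      refine ⟨?_, ?_⟩
      · refine (habs (τ l) _ (ht0 l hl)).trans ?_
        rw [← h1]
        exact (hle l hl).1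
      · refine (habs (τ l) _ (ht0 l hl)).trans ?_
        rw [← h2]
        exact (hle l hl).2)
    (by
      intro k hk l hl hkl heq
      rw [mem_image] at hk hl
      obtain ⟨k', hk', rfl⟩ := hk
      obtain ⟨l', hl', rfl⟩ := hl
      obtain ⟨-, -, hk3, hk4⟩ := hred k' (hne k' hk').1
      obtain ⟨-, -, hl3, hl4⟩ := hred l' (hne l' hl').1
      apply hkl
      have e1 : (red k').1 ∣ (red l').1 := by
        apply hk4.dvd_of_dvd_mul_right
        rw [← heq]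
        exact dvd_mul_right _ _
      have e2 : (red l').1 ∣ (red k').1 := by
        apply hl4.dvd_of_dvd_mul_right
        rw [heq]
        exact dvd_mul_right _ _
      have e3 : (red k').1 = (red l').1 :=
        Int.dvd_antisymm hk3.le hl3.le e1 e2
      rw [e3] at heq
      have e4 := mul_left_cancel₀ hl3.ne' heq
      exact Prod.ext e3 e4.symm)
    (by
      refine (sum_image_le_gen 𝓛 red (fun m => wI (g * rsl t m)) (fun _ => wI_nonneg _)).trans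
        (le_trans (sum_le_sum fun l hl => ?_) hw)
      obtain ⟨h1, h2, h3, h4⟩ := hred l (hne l hl).1
      apply wI_mono (mul_ne_zero hgz (rsl_ne (hne l hl)))
      apply mul_dvd_mul_left
      unfold rsl
      conv_rhs => rw [h1, h2]
      apply mul_dvd_mul (dvd_mul_left _ _)
      apply Finset.prod_dvd_prod_of_dvd
      intro j _
      exact ⟨τ l, by ring⟩)
    col hcol bad hbad
  refine ⟨p, hXp, hp3, hpb, hpd, hE, fun l hl => ?_⟩
  obtain ⟨q, h1, h2, h3, h4⟩ := hmain (red l) (mem_image_of_mem _ hl)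
  refine ⟨q, h1, h2, h3, ?_⟩
  obtain ⟨e1, e2, -, -⟩ := hred l (hne l hl).1
  have e3 : l.1 * (p : ℤ) + l.2 = τ l * ((red l).1 * p + (red l).2) := by
    conv_lhs => rw [e1, e2]
    ring
  rw [e3]
  exact h4.mul_left _

end Pool.Agent.K7.H61.FT
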