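import Pool.Agent.K7.H61.FT.Far
import Pool.Agent.K7.H61.FF.Fin

set_option autoImplicit false
set_option maxHeartbeats 4000000

/-! # Far-apart linear forms composite at the same tuples of primes: final form (helper61) -/

namespace Pool.Agent.K7.H61.FT

open Finset Filter
open Pool.Agent.TH101.RG
open Pool.Agent.H362R2.RQ (fib)
open Pool.Agent.K7.H61.FF

open scoped Classical

/-- far-apart forms are composite at the same clusters of primes -/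
theorem farT_composite : ∃ η : ℝ, 0 < η ∧ ∀ m : ℕ, 1 ≤ m → ∃ K : ℕ, m ≤ K ∧ ∀ (D d : ℕ), Squarefree d →
    ∃ c : ℝ, 0 < c ∧ ∀ᶠ X : ℝ in atTop,
    ∀ t : Fin K → ℕ, Function.Injective t → (∀ j, (t j : ℝ) ≤ (Real.log X) ^ 2) →
    (∀ p : ℕ, p.Prime → ∃ v : ℕ, ∀ j, ¬ p ∣ v + t j) → ∀ h : ℕ, (∀ j, (h + t j).Coprime d) →
    ∀ g : ℕ, g ≠ 0 → (g : ℝ) ≤ X ^ D → ∀ 𝓛 : Finset (ℤ × ℤ),
    (∀ l ∈ 𝓛, l.1 ≠ 0 ∧ ∀ j, l.1 * t j ≠ l.2) → (∀ l ∈ 𝓛, |(l.1 : ℝ)| ≤ X ^ D ∧ |(l.2 : ℝ)| ≤ X ^ D) →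
    ∑ l ∈ 𝓛, wI (g * rsl t l) ≤ c * (Real.log X * Real.log (Real.log X)) →
    ∀ col : Fin K → Fin m, (∀ e, K ≤ 2 * m * fib col e) →
    ∀ bad : Finset ℕ, (bad.card : ℝ) ≤ X ^ (7 / 8 : ℝ) →
    ∃ n : ℕ, X < n ∧ (n : ℝ) ≤ 3 * X ∧ n ∉ bad ∧ n ≡ h [MOD d] ∧
      (∃ E : Finset (Fin m), η * m ≤ E.card ∧ ∀ e ∈ E, ∃ j, col j = e ∧ (n + t j).Prime) ∧
      ∀ l ∈ 𝓛, ∃ q : ℕ, q.Prime ∧ (q : ℝ) ≤ X ^ (1 / 1000 : ℝ) ∧ ¬ q ∣ g ∧ (q : ℤ) ∣ l.1 * n + l.2 ∧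
        (q : ℤ) < |l.1 * n + l.2| := by
  obtain ⟨η, hη, htem⟩ := farT_forms
  refine ⟨η, hη, fun m hm => ?_⟩
  obtain ⟨K, hmK, hK⟩ := htem m hm
  refine ⟨K, hmK, fun D d hd => ?_⟩
  obtain ⟨c, hc, hX⟩ := hK D d hd
  refine ⟨c, hc, ?_⟩
  filter_upwards [hX, ev_grow c, eventually_ge_atTop 4] with X hX hgr hX4
  intro t htinj htl hadm h hh g hg0 hgD 𝓛 hne hle hw col hcol bad hbad
  have hgz : (g : ℤ) ≠ 0 := by exact_mod_cast hg0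
  have hcard : (𝓛.card : ℝ) ≤ c * (Real.log X * Real.log (Real.log X)) := by
    refine le_trans ?_ hw
    have h1 : ∑ l ∈ 𝓛, (1 : ℝ) ≤ ∑ l ∈ 𝓛, wI (g * rsl t l) := sum_le_sum fun l hl =>
      wI_one_le (mul_ne_zero hgz (rsl_ne (hne l hl)))
    simpa using h1
  have hpos : (0 : ℝ) ≤ X ^ (1 / 1000 : ℝ) := by positivity
  set small : Finset ℕ :=
    (Icc 1 ⌊3 * X⌋₊).filter (fun n : ℕ => ∃ l ∈ 𝓛, |((l.1 * n + l.2 : ℤ) : ℝ)| ≤ X ^ (1 / 1000 : ℝ)) with hsmall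
  obtain ⟨p, hXp, hp3, hpb, hpd, hE, hmain⟩ := hX t htinj htl hadm h hh g hg0 hgD 𝓛 hne hle hw col hcol
    (bad ∪ small)
    (by
      have hu : ((bad ∪ small).card : ℝ) ≤ (bad.card : ℝ) + small.card := by
        exact_mod_cast card_union_le bad small
      refine hu.trans (le_trans ?_ hgr)
      apply add_le_add hbad
      refine (bad_small 𝓛 (fun l hl => (hne l hl).1) _ _ hpos).trans ?_
      exact mul_le_mul_of_nonneg_right hcard (by linarith))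
  rw [mem_union, not_or] at hpb
  refine ⟨p, hXp, hp3, hpb.1, hpd, hE, fun l hl => ?_⟩
  obtain ⟨q, h1, h2, h3, h4⟩ := hmain l hl
  refine ⟨q, h1, h2, h3, h4, ?_⟩
  by_contra hcon
  push Not at hcon
  apply hpb.2
  rw [hsmall, mem_filter, mem_Icc]
  have hp1 : 1 ≤ p := by
    have : (0 : ℝ) < p := by linarith
    exact_mod_cast this
  refine ⟨⟨hp1, Nat.le_floor hp3⟩, l, hl, ?_⟩
  have h5 : |((l.1 * p + l.2 : ℤ) : ℝ)| ≤ q := by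
    have : ((|l.1 * (p : ℤ) + l.2| : ℤ) : ℝ) ≤ ((q : ℤ) : ℝ) := by exact_mod_cast hcon
    rw [Int.cast_abs] at this
    exact_mod_cast this
  exact h5.trans h2

end Pool.Agent.K7.H61.FT
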